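import Mathlib
import Pool.Agent.W275.UB.Den

set_option autoImplicit false

namespace Pool.Agent.W883.UB.Interp

open MvPolynomial

/-- clearing denominators of a linear form on a finite power of `ℚ` -/
lemma clear {θ : Type} [Fintype θ] [DecidableEq θ] (φ : Module.Dual ℚ (θ → ℚ)) :
    ∃ (d : ℤ) (l : θ → ℤ), d ≠ 0 ∧ ∀ x : θ → ℚ, ∑ t, (l t : ℚ) * x t = d * φ x := by
  classical
  set a : θ → ℚ := fun t => φ (Pi.single t 1) with ha
  have hφ : ∀ x : θ → ℚ, φ x = ∑ t, a t * x t := by
    intro x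
    have hx : x = ∑ t, x t • (Pi.single t (1 : ℚ) : θ → ℚ) := by
      ext s
      simp [Finset.sum_apply, Pi.single_apply]
    conv_lhs => rw [hx]
    rw [map_sum]
    refine Finset.sum_congr rfl fun t _ => ?_
    rw [map_smul, smul_eq_mul, mul_comm]
  refine ⟨∏ t, ((a t).den : ℤ), fun t => (a t).num * ∏ s ∈ Finset.univ.erase t, ((a s).den : ℤ),
    ?_, ?_⟩
  · rw [Finset.prod_ne_zero_iff]
    intro t _
    exact_mod_cast (a t).den_ne_zero
  · intro x
    rw [hφ, Finset.mul_sum]
    refine Finset.sum_congr rfl fun t _ => ?_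
    rw [← Finset.mul_prod_erase Finset.univ _ (Finset.mem_univ t)]
    push_cast
    have h3 : ((a t).den : ℚ) * a t = (a t).num := by
      rw [mul_comm]
      exact Rat.mul_den_eq_num (a t)
    rw [← h3]
    ring

theorem main : Pool.Agent.W275.UB.S_interp := by
  intro ι _ k Θ
  classical
  set v : (ι →₀ ℕ) → (Θ → ℚ) := fun μ t => ∏ i, ((t.1 i : ℤ) : ℚ) ^ μ i with hv
  set W : Submodule ℚ (Θ → ℚ) := Submodule.span ℚ (v '' {μ | μ.degree ≤ k}) with hW
  obtain ⟨S, hS⟩ : W.dualAnnihilator.FG := IsNoetherian.noetherian _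
  choose d l hd hl using (fun φ : Module.Dual ℚ (Θ → ℚ) => clear φ)
  set L : Module.Dual ℚ (Θ → ℚ) → ((ι → ℤ) → ℤ) := fun φ t => if h : t ∈ Θ then l φ ⟨t, h⟩ else 0
    with hL
  have key : ∀ (φ : Module.Dual ℚ (Θ → ℚ)) (T : (ι → ℤ) → ℤ),
      ((∑ t ∈ Θ, L φ t * T t : ℤ) : ℚ) = d φ * φ (fun t => (T t.1 : ℚ)) := by
    intro φ T
    rw [← hl φ]
    rw [← Finset.sum_coe_sort Θ]
    push_cast
    refine Finset.sum_congr rfl fun t _ => ?_
    rw [hL]
    simp only [Finset.coe_mem, dif_pos, Subtype.coe_eta]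
  refine ⟨S.image L, ?_, ?_⟩
  · intro l' hl' μ hμ
    rw [Finset.mem_image] at hl'
    obtain ⟨φ, hφ, rfl⟩ := hl'
    have h1 : φ ∈ W.dualAnnihilator := by
      rw [← hS]
      exact Submodule.subset_span hφ
    rw [Submodule.mem_dualAnnihilator] at h1
    have h2 := h1 (v μ) (Submodule.subset_span ⟨μ, hμ, rfl⟩)
    have h3 := key φ (fun t => ∏ i, t i ^ μ i)
    have h4 : (fun t : Θ => (((∏ i, t.1 i ^ μ i : ℤ)) : ℚ)) = v μ := by
      ext t
      rw [hv]
      push_cast
      rfl
    rw [h4, h2, mul_zero] at h3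
    exact_mod_cast h3
  · intro T hT
    have h1 : (fun t : Θ => (T t.1 : ℚ)) ∈ W := by
      rw [← Subspace.dualAnnihilator_dualCoannihilator_eq (W := W)]
      rw [Submodule.mem_dualCoannihilator]
      intro φ hφ
      rw [← hS] at hφ
      induction hφ using Submodule.span_induction with
      | mem φ hφ =>
        have h2 := hT (L φ) (Finset.mem_image_of_mem L hφ)
        have h3 := key φ T
        rw [h2] at h3
        have h4 : (d φ : ℚ) ≠ 0 := by exact_mod_cast hd φ
        have h5 : (d φ : ℚ) * φ (fun t : Θ => (T t.1 : ℚ)) = 0 := by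
          rw [← h3]; simp
        exact (mul_eq_zero.1 h5).resolve_left h4
      | zero => simp
      | add φ ψ _ _ h h' => rw [LinearMap.add_apply, h, h', add_zero]
      | smul a φ _ h => rw [LinearMap.smul_apply, h, smul_zero]
    have h2 : ∀ x ∈ W, ∃ Q : MvPolynomial ι ℚ, Q.totalDegree ≤ k ∧
        ∀ t : Θ, eval (fun i => (t.1 i : ℚ)) Q = x t := by
      intro x hx
      induction hx using Submodule.span_induction with
      | mem x hx =>
        obtain ⟨μ, hμ, rfl⟩ := hx
        refine ⟨monomial μ 1, ?_, ?_⟩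
        · refine (totalDegree_monomial_le _ _).trans ?_
          exact hμ
        · intro t
          rw [eval_monomial, one_mul, hv]
          simp only
          rw [Finsupp.prod_fintype]
          intro i
          simp
      | zero => exact ⟨0, by simp, by simp⟩
      | add x y _ _ h h' =>
        obtain ⟨Q, hQ, hQ'⟩ := h
        obtain ⟨R, hR, hR'⟩ := h'
        exact ⟨Q + R, (totalDegree_add _ _).trans (max_le hQ hR), fun t => by
          rw [map_add, hQ', hR']; rfl⟩
      | smul a x _ h =>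
        obtain ⟨Q, hQ, hQ'⟩ := h
        exact ⟨a • Q, (totalDegree_smul_le _ _).trans hQ, fun t => by
          rw [smul_eval, hQ']; rfl⟩
    obtain ⟨Q, hQ, hQ'⟩ := h2 _ h1
    exact ⟨Q, hQ, fun t ht => hQ' ⟨t, ht⟩⟩

end Pool.Agent.W883.UB.Interp
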