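import Mathlib
import Pool.Agent.W275.UB.Den

set_option autoImplicit false

namespace Pool.Agent.W883.UB.Dens

open Polynomial

lemma pow_lem (p : ℤ) (hp : Prime p) (w : ℕ) (y : ℤ) : ∀ (t : ℕ) (x : ℤ), ¬ p ^ t ∣ x →
    p ^ (w + t) ∣ x * y → p ^ w ∣ y := by
  intro t
  induction t with
  | zero => intro x h; simp at h
  | succ t ih =>
    intro x h h2
    by_cases hx : p ∣ x
    · obtain ⟨x', rfl⟩ := hx
      apply ih x'
      · intro h3
        apply h
        rw [pow_succ, mul_comm (p ^ t)]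
        exact mul_dvd_mul_left p h3
      · have h4 : p * p ^ (w + t) ∣ p * (x' * y) := by
          have : p * p ^ (w + t) = p ^ (w + (t + 1)) := by ring
          rw [this, ← mul_assoc]
          exact h2
        exact (mul_dvd_mul_iff_left hp.ne_zero).1 h4
    · have := hp.pow_dvd_of_dvd_mul_left _ hx h2
      exact (pow_dvd_pow p (by omega)).trans this

lemma classes (p : ℤ) (hp : Prime p) (u t : ℕ) : ∀ (m : ℕ) (f : ℤ[X]) (V : ℕ), f.natDegree ≤ m →
    ¬ C (p ^ u) ∣ f → u + m * t ≤ V →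
    ∃ S : Finset ℤ, S.card ≤ m ∧ ∀ a : ℤ, p ^ V ∣ f.eval a → ∃ s ∈ S, p ^ t ∣ a - s := by
  intro m
  induction m with
  | zero =>
    intro f V hf hC hV
    refine ⟨∅, by simp, ?_⟩
    intro a ha
    exfalso
    apply hC
    have h1 : f = C (f.coeff 0) := eq_C_of_natDegree_le_zero hf
    rw [h1] at ha ⊢
    simp only [eval_C] at ha
    exact _root_.map_dvd C ((pow_dvd_pow p (by omega)).trans ha)
  | succ m ih =>
    intro f V hf hC hV
    by_cases h : ∃ a0, p ^ V ∣ f.eval a0
    · obtain ⟨a0, ha0⟩ := h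
      have hmon : (X - C a0 : ℤ[X]).Monic := monic_X_sub_C a0
      have hdiv : C (f.eval a0) + (X - C a0) * (f /ₘ (X - C a0)) = f := by
        have := modByMonic_add_div f (X - C a0)
        rwa [modByMonic_X_sub_C_eq_C_eval] at this
      set g := f /ₘ (X - C a0) with hg
      have hgd : g.natDegree ≤ m := by
        rw [hg, natDegree_divByMonic f hmon, natDegree_X_sub_C]
        omega
      have hgC : ¬ C (p ^ u) ∣ g := by
        intro h1
        apply hC
        rw [← hdiv]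
        apply dvd_add
        · exact _root_.map_dvd C ((pow_dvd_pow p (by nlinarith)).trans ha0)
        · exact h1.mul_left _
      have hVt : u + m * t ≤ V - t ∧ t ≤ V := by
        constructor
        · have : u + (m + 1) * t = (u + m * t) + t := by ring
          omega
        · nlinarith
      obtain ⟨S, hS, hS2⟩ := ih g (V - t) hgd hgC hVt.1
      refine ⟨insert a0 S, ?_, ?_⟩
      · exact (Finset.card_insert_le _ _).trans (by omega)
      · intro a ha
        by_cases h2 : p ^ t ∣ a - a0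
        · exact ⟨a0, by simp, h2⟩
        · have h3 : p ^ V ∣ (a - a0) * g.eval a := by
            have h4 : (a - a0) * g.eval a = f.eval a - f.eval a0 := by
              conv_rhs => rw [← hdiv]
              simp
            rw [h4]
            exact dvd_sub ha ha0
          have h5 : p ^ (V - t) ∣ g.eval a := by
            apply pow_lem p hp (V - t) _ t (a - a0) h2
            have : V - t + t = V := by omega
            rw [this]
            exact h3
          obtain ⟨s, hs, hs2⟩ := hS2 a h5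
          exact ⟨s, by simp [hs], hs2⟩
    · refine ⟨∅, by simp, ?_⟩
      intro a ha
      exact absurd ⟨a, ha⟩ h

lemma cnt_one (q : ℕ) (hq : 0 < q) (H : ℕ) (s : ℤ) :
    (((Finset.Icc (-(H : ℤ)) H).filter (fun a => (q : ℤ) ∣ a - s)).card : ℝ) ≤
      (2 * H + 1 : ℝ) / q + 1 := by
  have h1 : (Finset.Icc (-(H : ℤ)) H).filter (fun a => (q : ℤ) ∣ a - s) =
      (Finset.Ico (-(H : ℤ)) (H + 1)).filter (fun a => a ≡ s [ZMOD (q : ℤ)]) := by
    ext a
    simp only [Finset.mem_filter, Finset.mem_Icc, Finset.mem_Ico]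
    constructor
    · rintro ⟨⟨h1, h2⟩, h3⟩
      refine ⟨⟨h1, by omega⟩, ?_⟩
      exact (Int.modEq_iff_dvd.2 h3).symm
    · rintro ⟨⟨h1, h2⟩, h3⟩
      refine ⟨⟨h1, by omega⟩, ?_⟩
      exact Int.modEq_iff_dvd.1 h3.symm
  rw [h1]
  have hq' : (0 : ℤ) < (q : ℤ) := by exact_mod_cast hq
  have h2 := Int.Ico_filter_modEq_card (-(H : ℤ)) (H + 1) (r := (q : ℤ)) hq' s
  have h3 : ((((Finset.Ico (-(H : ℤ)) (H + 1)).filter
      (fun a => a ≡ s [ZMOD (q : ℤ)])).card : ℤ) : ℝ) ≤ (2 * H + 1 : ℝ) / q + 1 := by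
    rw [h2]
    have hqQ : (0 : ℚ) < q := by exact_mod_cast hq
    have h4 : ((max (⌈(((H : ℤ) + 1 : ℤ) - (s : ℤ) : ℚ) / ((q : ℤ) : ℚ)⌉ -
        ⌈((-(H : ℤ) : ℤ) - (s : ℤ) : ℚ) / ((q : ℤ) : ℚ)⌉) 0 : ℤ) : ℚ) ≤ (2 * H + 1 : ℚ) / q + 1 := by
      have h5 := Int.ceil_lt_add_one ((((H : ℤ) + 1 : ℤ) - (s : ℤ) : ℚ) / ((q : ℤ) : ℚ))
      have h6 := Int.le_ceil (((-(H : ℤ) : ℤ) - (s : ℤ) : ℚ) / ((q : ℤ) : ℚ))
      have h7 : (0 : ℚ) ≤ (2 * H + 1 : ℚ) / q + 1 := by positivity
      rw [Int.cast_max]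
      apply max_le
      · push_cast at h5 h6 ⊢
        have h8 : ((H : ℚ) + 1 - s) / q - (-(H : ℚ) - s) / q = (2 * H + 1) / q := by
          field_simp
          ring
        linarith
      · simpa using h7
    have h9 : (((max (⌈(((H : ℤ) + 1 : ℤ) - (s : ℤ) : ℚ) / ((q : ℤ) : ℚ)⌉ -
        ⌈((-(H : ℤ) : ℤ) - (s : ℤ) : ℚ) / ((q : ℤ) : ℚ)⌉) 0 : ℤ) : ℚ) : ℝ) ≤
        (((2 * H + 1 : ℚ) / q + 1 : ℚ) : ℝ) := by exact_mod_cast h4
    push_cast at h9 ⊢
    exact h9
  simpa using h3

lemma cnt_S (q : ℕ) (hq : 0 < q) (H : ℕ) (S : Finset ℤ) (P : ℤ → Prop) [DecidablePred P]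
    (hP : ∀ a, P a → ∃ s ∈ S, (q : ℤ) ∣ a - s) :
    (((Finset.Icc (-(H : ℤ)) H).filter P).card : ℝ) ≤
      S.card * ((2 * H + 1 : ℝ) / q + 1) := by
  classical
  have h1 : (Finset.Icc (-(H : ℤ)) H).filter P ⊆
      S.biUnion (fun s => (Finset.Icc (-(H : ℤ)) H).filter (fun a => (q : ℤ) ∣ a - s)) := by
    intro a ha
    rw [Finset.mem_filter] at ha
    obtain ⟨s, hs, hs2⟩ := hP a ha.2
    rw [Finset.mem_biUnion]
    exact ⟨s, hs, Finset.mem_filter.2 ⟨ha.1, hs2⟩⟩
  have h2 := (Finset.card_le_card h1).trans Finset.card_biUnion_le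
  have h3 : (((Finset.Icc (-(H : ℤ)) H).filter P).card : ℝ) ≤
      ∑ s ∈ S, (((Finset.Icc (-(H : ℤ)) H).filter (fun a => (q : ℤ) ∣ a - s)).card : ℝ) := by
    exact_mod_cast h2
  refine h3.trans ?_
  refine (Finset.sum_le_sum (fun s _ => cnt_one q hq H s)).trans ?_
  rw [Finset.sum_const, nsmul_eq_mul]

noncomputable def box (n H : ℕ) : Finset (Fin n → ℤ) :=
  Fintype.piFinset (fun _ => Finset.Icc (-(H : ℤ)) H)

lemma card_box (n H : ℕ) : ((box n H).card : ℝ) = (2 * H + 1 : ℝ) ^ n := by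
  unfold box
  rw [Fintype.card_piFinset]
  simp only [Finset.prod_const, Finset.card_univ, Fintype.card_fin, Int.card_Icc]
  have : ((H : ℤ) + 1 - -(H : ℤ)).toNat = 2 * H + 1 := by omega
  rw [this]
  push_cast
  ring

lemma fiber_le (n H : ℕ) (P : (Fin (n + 1) → ℤ) → Prop) [DecidablePred P] :
    ((box (n + 1) H).filter P).card ≤
      ∑ w ∈ box n H, ((Finset.Icc (-(H : ℤ)) H).filter (fun y => P (Fin.cons y w))).card := by
  classical
  have h1 : ∀ v ∈ (box (n + 1) H).filter P, Fin.tail v ∈ box n H := by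
    intro v hv
    rw [Finset.mem_filter] at hv
    unfold box at hv ⊢
    rw [Fintype.mem_piFinset] at hv ⊢
    intro i
    exact hv.1 i.succ
  rw [Finset.card_eq_sum_card_fiberwise h1]
  apply Finset.sum_le_sum
  intro w hw
  apply Finset.card_le_card_of_injOn (fun v => v 0)
  · intro v hv
    simp only [Finset.coe_filter, Finset.mem_filter, Set.mem_ofPred_eq] at hv
    obtain ⟨⟨hv1, hv2⟩, hv3⟩ := hv
    simp only [Finset.coe_filter, Set.mem_ofPred_eq]
    refine ⟨?_, ?_⟩
    · unfold box at hv1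
      rw [Fintype.mem_piFinset] at hv1
      exact hv1 0
    · rw [← hv3, Fin.cons_self_tail]
      exact hv2
  · intro v hv v' hv' h
    simp only [Finset.coe_filter, Finset.mem_filter, Set.mem_ofPred_eq] at hv hv'
    have h2 : v = Fin.cons (v 0) w := by rw [← hv.2, Fin.cons_self_tail]
    have h3 : v' = Fin.cons (v' 0) w := by rw [← hv'.2, Fin.cons_self_tail]
    rw [h2, h3]
    simp only at h
    rw [h]

end Pool.Agent.W883.UB.Dens

namespace Pool.Agent.W883.UB.Dens

open MvPolynomial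

lemma main_fin (p : ℕ) (hp : p.Prime) : ∀ (n : ℕ) (c : MvPolynomial (Fin n) ℤ), c ≠ 0 →
    ∀ ε : ℝ, 0 < ε → ∃ V H₀ : ℕ, ∀ H : ℕ, H₀ ≤ H →
    (((box n H).filter (fun v => (p : ℤ) ^ V ∣ eval v c)).card : ℝ) ≤
      ε * (2 * H + 1 : ℝ) ^ n := by
  have hpz : Prime (p : ℤ) := Nat.prime_iff_prime_int.1 hp
  intro n
  induction n with
  | zero =>
    intro c hc ε hε
    obtain ⟨a, ha⟩ := C_surjective (R := ℤ) (Fin 0) c
    subst ha
    have ha0 : a ≠ 0 := by
      rintro rfl
      simp at hc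
    refine ⟨a.natAbs, 0, ?_⟩
    intro H _
    have h1 : (box 0 H).filter (fun v => (p : ℤ) ^ a.natAbs ∣ eval v (C a)) = ∅ := by
      rw [Finset.filter_eq_empty_iff]
      intro v _ h
      rw [eval_C] at h
      have h2 : p ^ a.natAbs ∣ a.natAbs := by
        have := Int.natAbs_dvd_natAbs.2 h
        rwa [Int.natAbs_pow, Int.natAbs_natCast] at this
      have h3 := Nat.le_of_dvd (Int.natAbs_pos.2 ha0) h2
      exact absurd h3 (not_le.2 (Nat.lt_pow_self hp.one_lt))
    rw [h1]
    simp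
    exact hε.le
  | succ n ih =>
    intro c hc ε hε
    set F := finSuccEquiv ℤ n c with hF
    have hF0 : F ≠ 0 := by
      rw [hF]
      exact (AddEquivClass.map_ne_zero_iff).2 hc
    set m := F.natDegree with hm
    have hlead : F.leadingCoeff ≠ 0 := Polynomial.leadingCoeff_ne_zero.2 hF0
    obtain ⟨u, H1, hu⟩ := ih F.leadingCoeff hlead (ε / 2) (by positivity)
    obtain ⟨t, ht⟩ : ∃ t : ℕ, (m : ℝ) / (p : ℝ) ^ t ≤ ε / 4 := by
      have hp1 : (1 : ℝ) < p := by exact_mod_cast hp.one_lt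
      obtain ⟨t, ht⟩ := pow_unbounded_of_one_lt (4 * m / ε) hp1
      refine ⟨t, ?_⟩
      have hpt : (0 : ℝ) < (p : ℝ) ^ t := by positivity
      rw [div_le_iff₀ hpt]
      rw [div_lt_iff₀ hε] at ht
      linarith
    obtain ⟨H2, hH2⟩ := exists_nat_ge ((m : ℝ) / (ε / 4))
    refine ⟨u + m * t, max H1 H2, ?_⟩
    intro H hH
    have hH1 := hu H (le_of_max_le_left hH)
    have hH2' : (m : ℝ) ≤ ε / 4 * (2 * H + 1) := by
      have : (H2 : ℝ) ≤ H := by exact_mod_cast le_of_max_le_right hH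
      have h3 : (m : ℝ) / (ε / 4) ≤ H := hH2.trans this
      rw [div_le_iff₀ (by positivity)] at h3
      nlinarith [Nat.cast_nonneg (α := ℝ) H]
    have h1 := fiber_le n H (fun v => (p : ℤ) ^ (u + m * t) ∣ eval v c)
    have h2 : (((box (n + 1) H).filter (fun v => (p : ℤ) ^ (u + m * t) ∣ eval v c)).card : ℝ) ≤
      ∑ w ∈ box n H, (((Finset.Icc (-(H : ℤ)) H).filter
        (fun y => (p : ℤ) ^ (u + m * t) ∣ eval (Fin.cons y w : Fin (n + 1) → ℤ) c)).card : ℝ) := by
      exact_mod_cast h1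
    refine h2.trans ?_
    rw [← Finset.sum_filter_add_sum_filter_not (box n H)
      (fun w => (p : ℤ) ^ u ∣ eval w F.leadingCoeff)]
    have hbad : ∑ w ∈ (box n H).filter (fun w => (p : ℤ) ^ u ∣ eval w F.leadingCoeff),
        (((Finset.Icc (-(H : ℤ)) H).filter
        (fun y => (p : ℤ) ^ (u + m * t) ∣ eval (Fin.cons y w : Fin (n + 1) → ℤ) c)).card : ℝ) ≤
        ε / 2 * (2 * H + 1 : ℝ) ^ (n + 1) := by
      have : ∀ w ∈ (box n H).filter (fun w => (p : ℤ) ^ u ∣ eval w F.leadingCoeff),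
        (((Finset.Icc (-(H : ℤ)) H).filter
        (fun y => (p : ℤ) ^ (u + m * t) ∣ eval (Fin.cons y w : Fin (n + 1) → ℤ) c)).card : ℝ) ≤
        (2 * H + 1 : ℝ) := by
        intro w _
        have h5 : ((Finset.Icc (-(H : ℤ)) H).filter
          (fun y => (p : ℤ) ^ (u + m * t) ∣ eval (Fin.cons y w : Fin (n + 1) → ℤ) c)).card ≤
          2 * H + 1 := by
          refine (Finset.card_filter_le _ _).trans ?_
          rw [Int.card_Icc]
          omega
        exact_mod_cast h5
      refine (Finset.sum_le_sum this).trans ?_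
      rw [Finset.sum_const, nsmul_eq_mul]
      calc _ ≤ (ε / 2 * (2 * H + 1 : ℝ) ^ n) * (2 * H + 1) := by
            apply mul_le_mul_of_nonneg_right hH1 (by positivity)
        _ = _ := by ring
    have hgood : ∑ w ∈ (box n H).filter (fun w => ¬ (p : ℤ) ^ u ∣ eval w F.leadingCoeff),
        (((Finset.Icc (-(H : ℤ)) H).filter
        (fun y => (p : ℤ) ^ (u + m * t) ∣ eval (Fin.cons y w : Fin (n + 1) → ℤ) c)).card : ℝ) ≤
        ε / 2 * (2 * H + 1 : ℝ) ^ (n + 1) := by
      have : ∀ w ∈ (box n H).filter (fun w => ¬ (p : ℤ) ^ u ∣ eval w F.leadingCoeff),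
        (((Finset.Icc (-(H : ℤ)) H).filter
        (fun y => (p : ℤ) ^ (u + m * t) ∣ eval (Fin.cons y w : Fin (n + 1) → ℤ) c)).card : ℝ) ≤
        ε / 2 * (2 * H + 1 : ℝ) := by
        intro w hw
        rw [Finset.mem_filter] at hw
        set f := Polynomial.map (eval w) F with hf
        have hfd : f.natDegree ≤ m := Polynomial.natDegree_map_le
        have hfC : ¬ Polynomial.C ((p : ℤ) ^ u) ∣ f := by
          intro h6
          apply hw.2
          rw [Polynomial.C_dvd_iff_dvd_coeff] at h6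
          have := h6 m
          rw [hf, Polynomial.coeff_map] at this
          exact this
        obtain ⟨S, hS, hS2⟩ := classes p hpz u t m f (u + m * t) hfd hfC le_rfl
        have h7 := cnt_S (p ^ t) (pow_pos hp.pos t) H S
          (fun y => (p : ℤ) ^ (u + m * t) ∣ eval (Fin.cons y w : Fin (n + 1) → ℤ) c) (by
            intro a ha
            rw [eval_eq_eval_mv_eval'] at ha
            obtain ⟨s, hs, hs2⟩ := hS2 a ha
            exact ⟨s, hs, by exact_mod_cast hs2⟩)
        refine h7.trans ?_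
        have h8 : (S.card : ℝ) ≤ m := by exact_mod_cast hS
        calc (S.card : ℝ) * ((2 * H + 1 : ℝ) / ((p ^ t : ℕ) : ℝ) + 1)
            ≤ m * ((2 * H + 1 : ℝ) / ((p ^ t : ℕ) : ℝ) + 1) := by
              apply mul_le_mul_of_nonneg_right h8 (by positivity)
          _ = (m / (p : ℝ) ^ t) * (2 * H + 1 : ℝ) + m := by
              push_cast
              ring
          _ ≤ (ε / 4) * (2 * H + 1 : ℝ) + ε / 4 * (2 * H + 1) := by
              apply add_le_add _ hH2'
              apply mul_le_mul_of_nonneg_right ht (by positivity)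
          _ = ε / 2 * (2 * H + 1 : ℝ) := by ring
      refine (Finset.sum_le_sum this).trans ?_
      rw [Finset.sum_const, nsmul_eq_mul]
      have h9 : ((((box n H).filter (fun w => ¬ (p : ℤ) ^ u ∣ eval w F.leadingCoeff)).card : ℕ) : ℝ)
          ≤ (2 * H + 1 : ℝ) ^ n := by
        rw [← card_box]
        exact_mod_cast Finset.card_filter_le _ _
      calc _ ≤ (2 * H + 1 : ℝ) ^ n * (ε / 2 * (2 * H + 1 : ℝ)) := by
            apply mul_le_mul_of_nonneg_right h9 (by positivity)
        _ = _ := by ring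
    calc _ ≤ ε / 2 * (2 * H + 1 : ℝ) ^ (n + 1) + ε / 2 * (2 * H + 1 : ℝ) ^ (n + 1) :=
          add_le_add hbad hgood
      _ = _ := by ring

theorem main : Pool.Agent.W275.UB.S_dens := by
  intro ι _ c hc p hp ε hε
  classical
  set e := Fintype.equivFin ι with he
  set n := Fintype.card ι with hn
  have hc' : rename e c ≠ 0 := by
    intro h
    apply hc
    exact (rename_injective e e.injective) (by rw [h, map_zero])
  obtain ⟨V, H₀, hV⟩ := main_fin p hp n (rename e c) hc' ε hε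
  refine ⟨V, H₀, ?_⟩
  intro H hH
  refine le_trans ?_ (hV H hH)
  have h1 : ({v | v ∈ {v : ι → ℤ | (p : ℤ) ^ (V + 1) ∣ eval v c} ∧ ∀ i, |v i| ≤ (H : ℤ)} :
      Set (ι → ℤ)).ncard ≤
      ((box n H).filter (fun v => (p : ℤ) ^ V ∣ eval v (rename e c))).card := by
    rw [← Set.ncard_coe_finset]
    apply Set.ncard_le_ncard_of_injOn (fun v : ι → ℤ => v ∘ e.symm)
    · rintro v ⟨hv1, hv2⟩
      simp only [Finset.coe_filter, Set.mem_ofPred_eq]
      refine ⟨?_, ?_⟩
      · unfold box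
        rw [Fintype.mem_piFinset]
        intro i
        rw [Finset.mem_Icc]
        exact abs_le.1 (hv2 _)
      · rw [eval_rename]
        have : (v ∘ ⇑e.symm) ∘ ⇑e = v := by
          ext i
          simp
        rw [this]
        exact (pow_dvd_pow _ (by omega)).trans hv1
    · intro v _ v' _ h
      ext i
      have := congrFun h (e i)
      simpa using this
  exact_mod_cast h1

end Pool.Agent.W883.UB.Dens
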